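import Pool.Agent.H97.HM.Base

/-!
# Project HM: DISC from WIN, ITER, CLOSE
-/

set_option autoImplicit false
open Polynomial Filter Topology

namespace HM

theorem Bd_add2 {f g : ℕ → ℂ} {B B' : ℝ} (h : Bd 2 f B) (h' : Bd 2 g B') :
    Bd 2 (fun k => f k + g k) (2 * B + 2 * B') := by
  intro n
  have h1 := h n
  have h2 := h' n
  have h3 : ∀ k, ‖f k + g k‖ ^ (2 : ℝ) ≤ 2 * ‖f k‖ ^ (2 : ℝ) + 2 * ‖g k‖ ^ (2 : ℝ) := by
    intro k
    simp only [Real.rpow_two]
    have h4 := norm_add_le (f k) (g k)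
    have h5 := norm_nonneg (f k + g k)
    nlinarith [sq_nonneg (‖f k‖ - ‖g k‖)]
  calc ∑ k ∈ Finset.range n, ‖f k + g k‖ ^ (2 : ℝ)
      ≤ ∑ k ∈ Finset.range n, (2 * ‖f k‖ ^ (2 : ℝ) + 2 * ‖g k‖ ^ (2 : ℝ)) :=
        Finset.sum_le_sum fun k _ => h3 k
    _ = 2 * ∑ k ∈ Finset.range n, ‖f k‖ ^ (2 : ℝ) + 2 * ∑ k ∈ Finset.range n, ‖g k‖ ^ (2 : ℝ) := by
        rw [Finset.sum_add_distrib, Finset.mul_sum, Finset.mul_sum]
    _ ≤ 2 * B + 2 * B' := by linarith

theorem Bd_add3 {p : ℝ} (hp : 0 < p) {f g h : ℕ → ℂ} {A B C : ℝ} (hf : Bd p f A) (hg : Bd p g B)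
    (hh : Bd p h C) : Bd p (fun k => f k + g k + h k) (3 ^ p * (A + B + C)) := by
  intro n
  have h3 : ∀ k, ‖f k + g k + h k‖ ^ p ≤ 3 ^ p * (‖f k‖ ^ p + ‖g k‖ ^ p + ‖h k‖ ^ p) := by
    intro k
    set M := max ‖f k‖ (max ‖g k‖ ‖h k‖) with hM
    have hM0 : 0 ≤ M := le_max_of_le_left (norm_nonneg _)
    have h1 : ‖f k + g k + h k‖ ≤ 3 * M := by
      have a1 := norm_add₃_le (a := f k) (b := g k) (c := h k)
      have a2 : ‖f k‖ ≤ M := le_max_left _ _
      have a3 : ‖g k‖ ≤ M := (le_max_left _ _).trans (le_max_right _ _)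
      have a4 : ‖h k‖ ≤ M := (le_max_right _ _).trans (le_max_right _ _)
      linarith
    have h2 : M ^ p ≤ ‖f k‖ ^ p + ‖g k‖ ^ p + ‖h k‖ ^ p := by
      have b1 : 0 ≤ ‖f k‖ ^ p := by positivity
      have b2 : 0 ≤ ‖g k‖ ^ p := by positivity
      have b3 : 0 ≤ ‖h k‖ ^ p := by positivity
      rcases max_choice ‖f k‖ (max ‖g k‖ ‖h k‖) with e | e
      · rw [hM, e]; linarith
      · rcases max_choice ‖g k‖ ‖h k‖ with e' | e'
        · rw [hM, e, e']; linarith
        · rw [hM, e, e']; linarith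
    calc ‖f k + g k + h k‖ ^ p ≤ (3 * M) ^ p := Real.rpow_le_rpow (norm_nonneg _) h1 hp.le
      _ = 3 ^ p * M ^ p := Real.mul_rpow (by norm_num) hM0
      _ ≤ _ := mul_le_mul_of_nonneg_left h2 (by positivity)
  have h1 := hf n
  have h2 := hg n
  have h4 := hh n
  calc ∑ k ∈ Finset.range n, ‖f k + g k + h k‖ ^ p
      ≤ ∑ k ∈ Finset.range n, 3 ^ p * (‖f k‖ ^ p + ‖g k‖ ^ p + ‖h k‖ ^ p) :=
        Finset.sum_le_sum fun k _ => h3 k
    _ = 3 ^ p * (∑ k ∈ Finset.range n, ‖f k‖ ^ p + ∑ k ∈ Finset.range n, ‖g k‖ ^ p +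
          ∑ k ∈ Finset.range n, ‖h k‖ ^ p) := by
        rw [← Finset.mul_sum, Finset.sum_add_distrib, Finset.sum_add_distrib]
    _ ≤ 3 ^ p * (A + B + C) := mul_le_mul_of_nonneg_left (by linarith) (by positivity)

theorem DISC_proved (hW : S_WIN) (hI : S_ITER) (hC : S_CLOSE) : S_DISC := by
  intro p hp hp2 m
  obtain ⟨C, hC1, hI⟩ := hI p hp hp2
  obtain ⟨K, hK, hC⟩ := hC p hp hp2
  have hp0 : 0 < p := by linarith
  have hq0 : 0 < p / (p - 1) := div_pos hp0 (by linarith)
  set c : ℝ := (4 * K) ^ p + 2 * m * C + 1 with hc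
  have hc0 : 0 < c := by rw [hc]; positivity
  refine ⟨3 * c ^ (1 / p), by positivity, ?_⟩
  intro L γ a ε hL hε hγ ha haL hcor η hη
  obtain ⟨P, F, R, Q, u, x, y, hP, hF, hQ, hx, hu, hy, hcorr⟩ :=
    hW p hp hp2 m L γ a ε hL hε hγ ha haL hcor
  obtain ⟨Q', u', hQ'0, hu'0, hQ', hu', herr⟩ :=
    hI m R P F Q u L (ε ^ 2) x y (by positivity) hQ hu
  have hA : ∀ i, Bd 2 (cor (P + Q') (F i + u' i).coeff) ((4 * ε) ^ 2) := by
    intro i
    have h1 := Bd_add2 (hcorr i) (herr i)
    intro n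
    have h2 := h1 n
    have e : ∀ k, cor P (F i).coeff k + ∑ r ∈ Finset.range R, cor (Q r) (u r i).coeff k +
        (cor (P + Q') (F i + u' i).coeff k - cor P (F i).coeff k -
          ∑ r ∈ Finset.range R, cor (Q r) (u r i).coeff k) =
        cor (P + Q') (F i + u' i).coeff k := by
      intro k
      ring
    simp only [e] at h2
    have : 0 ≤ ε ^ 2 := by positivity
    linarith
  obtain ⟨G, b, hGs, hG0, hGk, hGN, hb⟩ :=
    hC m (P + Q') (fun i => F i + u' i) (4 * ε) (by positivity) hA L η hη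
  refine ⟨G, b, hGs, hG0, ?_, ?_, ?_⟩
  · intro k hk
    have h1 := hGk k hk.le
    have h2 : (P + Q').coeff k = γ k := by
      rw [coeff_add, hP k, hQ'0 k hk.le, if_pos hk, add_zero]
    rwa [h2] at h1
  · have h1 : Bd (p / (p - 1)) (P + Q').coeff 2 := by
      intro n
      have h2 : ∀ k, ‖(P + Q').coeff k‖ ^ (p / (p - 1)) ≤
          ‖γ k‖ ^ (p / (p - 1)) + ‖Q'.coeff k‖ ^ (p / (p - 1)) := by
        intro k
        have b1 : 0 ≤ ‖γ k‖ ^ (p / (p - 1)) := by positivity
        have b2 : 0 ≤ ‖Q'.coeff k‖ ^ (p / (p - 1)) := by positivity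
        rw [coeff_add, hP k]
        split_ifs with hk
        · rw [hQ'0 k hk.le, add_zero, norm_zero, Real.zero_rpow hq0.ne', add_zero]
        · rw [zero_add]
          linarith
      calc ∑ k ∈ Finset.range n, ‖(P + Q').coeff k‖ ^ (p / (p - 1))
          ≤ ∑ k ∈ Finset.range n, (‖γ k‖ ^ (p / (p - 1)) + ‖Q'.coeff k‖ ^ (p / (p - 1))) :=
            Finset.sum_le_sum fun k _ => h2 k
        _ ≤ 1 + ∑ r ∈ Finset.range R, x r := by
            rw [Finset.sum_add_distrib]
            exact add_le_add (hγ n) (hQ' n)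
        _ ≤ 2 := by linarith
    have h3 := hGN 2 h1
    norm_num at h3
    exact h3
  · intro i
    obtain ⟨h1, h2⟩ := hb i
    refine ⟨?_, h2⟩
    -- the three parts
    have hf2 : Bd p (u' i).coeff (2 * m * C * ε ^ p) := by
      intro n
      have h3 := hu' i n
      have h4 : C * ∑ r ∈ Finset.range R, y r ≤ C * (2 * m * ε ^ p) :=
        mul_le_mul_of_nonneg_left hy (by linarith)
      linarith
    have hf3 : Bd p (fun k => (F i).coeff k - a i k) (ε ^ p) := by
      intro n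
      have h5 : ∀ k, ‖(F i).coeff k - a i k‖ ^ p = if L ≤ k then ‖a i k‖ ^ p else 0 := by
        intro k
        rw [hF i k]
        by_cases hk : k < L
        · rw [if_pos hk, if_neg (by omega), sub_self, norm_zero, Real.zero_rpow hp0.ne']
        · rw [if_neg hk, if_pos (by omega), zero_sub, norm_neg]
      simp only [h5]
      calc ∑ k ∈ Finset.range n, (if L ≤ k then ‖a i k‖ ^ p else 0)
          ≤ ∑ k ∈ Finset.range (L + n), (if L ≤ k then ‖a i k‖ ^ p else 0) := by
            apply Finset.sum_le_sum_of_subset_of_nonneg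
            · exact Finset.range_subset_range.mpr (by omega)
            · intro k _ _
              split_ifs
              · positivity
              · exact le_rfl
        _ = ∑ k ∈ Finset.range n, ‖a i (L + k)‖ ^ p := by
            rw [Finset.sum_range_add]
            have e2 : ∑ x ∈ Finset.range L, (if L ≤ x then ‖a i x‖ ^ p else 0) = 0 := by
              apply Finset.sum_eq_zero
              intro x hx
              rw [Finset.mem_range] at hx
              rw [if_neg (by omega)]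
            rw [e2, zero_add]
            apply Finset.sum_congr rfl
            intro x _
            rw [if_pos (by omega)]
        _ ≤ ε ^ p := haL i n
    have h6 := Bd_add3 hp0 h1 hf2 hf3
    intro n
    have h7 := h6 n
    have e : ∀ k, b i k - (F i + u' i).coeff k + (u' i).coeff k + ((F i).coeff k - a i k) =
        b i k - a i k := by
      intro k
      rw [coeff_add]
      ring
    simp only [e] at h7
    refine h7.trans (le_of_eq ?_)
    have h9 : (3 * c ^ (1 / p) * ε) ^ p = 3 ^ p * c * ε ^ p := by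
      rw [Real.mul_rpow (by positivity) hε.le, Real.mul_rpow (by norm_num) (by positivity),
        ← Real.rpow_mul hc0.le, one_div_mul_cancel hp0.ne', Real.rpow_one]
    have h8 : (K * (4 * ε)) ^ p = (4 * K) ^ p * ε ^ p := by
      rw [← Real.mul_rpow (by positivity) hε.le]
      congr 1
      ring
    rw [h9, h8, hc]
    ring

end HM
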