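import Pool.Agent.H67.HM.Stm

/-!
# Project HM: HOL and tools for polynomials as finitely supported sequences
-/

set_option autoImplicit false
open Polynomial Filter Topology

namespace HM

theorem HOL_proved : S_HOL := by
  intro p hp x y s t hs ht hx hy n
  have hpq : p.HolderConjugate (p / (p - 1)) := by
    have := Real.HolderConjugate.conjExponent hp
    simpa [Real.conjExponent] using this
  set q := p / (p - 1) with hq
  have hp0 : 0 < p := hpq.pos
  have hq0 : 0 < q := hpq.symm.pos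
  have h1 := Real.inner_le_Lp_mul_Lq (Finset.range n) (fun k => ‖x k‖) (fun k => ‖y k‖) hpq.symm
  have h2 : (∑ i ∈ Finset.range n, |‖x i‖| ^ q) ^ (1 / q) ≤ s := by
    have e : (∑ i ∈ Finset.range n, |‖x i‖| ^ q) ≤ s ^ q := by
      simpa [abs_norm] using hx n
    calc (∑ i ∈ Finset.range n, |‖x i‖| ^ q) ^ (1 / q) ≤ (s ^ q) ^ (1 / q) :=
          Real.rpow_le_rpow (Finset.sum_nonneg fun i _ => by positivity) e (by positivity)
      _ = s := by rw [← Real.rpow_mul hs, mul_one_div_cancel hq0.ne', Real.rpow_one]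
  have h3 : (∑ i ∈ Finset.range n, |‖y i‖| ^ p) ^ (1 / p) ≤ t := by
    have e : (∑ i ∈ Finset.range n, |‖y i‖| ^ p) ≤ t ^ p := by
      simpa [abs_norm] using hy n
    calc (∑ i ∈ Finset.range n, |‖y i‖| ^ p) ^ (1 / p) ≤ (t ^ p) ^ (1 / p) :=
          Real.rpow_le_rpow (Finset.sum_nonneg fun i _ => by positivity) e (by positivity)
      _ = t := by rw [← Real.rpow_mul ht, mul_one_div_cancel hp0.ne', Real.rpow_one]
  calc ∑ k ∈ Finset.range n, ‖x k * y k‖ = ∑ k ∈ Finset.range n, ‖x k‖ * ‖y k‖ := by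
        simp only [norm_mul]
    _ ≤ _ := h1
    _ ≤ s * t := mul_le_mul h2 h3 (Real.rpow_nonneg (Finset.sum_nonneg fun i _ => by positivity) _) hs

/-- the polynomial with the coefficients `f k`, `k < n` -/
noncomputable def mk (n : ℕ) (f : ℕ → ℂ) : ℂ[X] := ∑ k ∈ Finset.range n, monomial k (f k)

theorem coeff_mk (n : ℕ) (f : ℕ → ℂ) (k : ℕ) : (mk n f).coeff k = if k < n then f k else 0 := by
  unfold mk
  rw [Polynomial.finset_sum_coeff]
  simp only [coeff_monomial]
  rw [Finset.sum_ite_eq' (Finset.range n) k]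
  simp

theorem cor_eq (A : ℂ[X]) (n : ℕ) (h : ∀ j, n ≤ j → A.coeff j = 0) (f : ℕ → ℂ) (k : ℕ) :
    cor A f k = ∑ j ∈ Finset.range n, A.coeff j * f (j + k) := by
  unfold cor
  apply Finset.sum_subset
  · intro j hj
    rw [Polynomial.mem_support_iff] at hj
    rw [Finset.mem_range]
    by_contra hc
    exact hj (h j (by omega))
  · intro j _ hj
    rw [Polynomial.notMem_support_iff] at hj
    rw [hj, zero_mul]

theorem Bd_mk {r : ℝ} (hr : 0 < r) (n : ℕ) (f : ℕ → ℂ) :
    Bd r (mk n f).coeff (∑ k ∈ Finset.range n, ‖f k‖ ^ r) := by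
  intro m
  have h1 : ∀ k, ‖(mk n f).coeff k‖ ^ r = if k < n then ‖f k‖ ^ r else 0 := by
    intro k
    rw [coeff_mk]
    split_ifs
    · rfl
    · rw [norm_zero, Real.zero_rpow hr.ne']
  simp only [h1]
  rw [← Finset.sum_filter]
  apply Finset.sum_le_sum_of_subset_of_nonneg
  · intro k hk
    rw [Finset.mem_filter] at hk
    rw [Finset.mem_range]
    exact hk.2
  · intro k _ _
    positivity

end HM
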