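import Pool.Agent.H67.HM.Stm

/-!
# Project HM: HPW (powers of the Hardy operator as Laplace integrals)
-/

set_option autoImplicit false
open Polynomial Filter Topology MeasureTheory

namespace HM

instance mu_finite : IsFiniteMeasure mu := by
  unfold mu
  infer_instance

theorem mu_univ : mu (Set.univ : Set ℝ) = 1 := by
  unfold mu
  simp

/-- the monomials are in `L^p` -/
theorem memLp_pow (p : ENNReal) (k : ℕ) : MemLp (fun x : ℝ => (x : ℂ) ^ k) p mu := by
  have h : ∀ᵐ x : ℝ ∂mu, ‖(x : ℂ) ^ k‖ ≤ 1 := by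
    unfold mu
    filter_upwards [ae_restrict_mem measurableSet_Icc] with x hx
    rw [norm_pow, Complex.norm_real, Real.norm_of_nonneg hx.1]
    exact pow_le_one₀ hx.1 hx.2
  refine MemLp.of_bound ?_ 1 h
  exact (by fun_prop : Continuous fun x : ℝ => (x : ℂ) ^ k).aestronglyMeasurable

/-- the monomials as elements of `L^p` -/
noncomputable def Mo (p : ENNReal) (k : ℕ) : LpI p := (memLp_pow p k).toLp

theorem Mo_ae (p : ENNReal) (k : ℕ) : (Mo p k : ℝ → ℂ) =ᵐ[mu] fun x : ℝ => (x : ℂ) ^ k :=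
  (memLp_pow p k).coeFn_toLp

theorem poly_mem (p : ENNReal) [Fact (1 ≤ p)] (P : ℂ[X]) (h : MemLp (fun x : ℝ => P.eval (x : ℂ)) p mu) :
    h.toLp ∈ Submodule.span ℂ (Set.range (Mo p)) := by
  have e : h.toLp = ∑ k ∈ P.support, P.coeff k • Mo p k := by
    apply Lp.ext
    refine h.coeFn_toLp.trans ?_
    have h1 : ∀ k ∈ P.support, ((P.coeff k • Mo p k : LpI p) : ℝ → ℂ) =ᵐ[mu]
        fun x : ℝ => P.coeff k * (x : ℂ) ^ k := by
      intro k _
      filter_upwards [Lp.coeFn_smul (P.coeff k) (Mo p k), Mo_ae p k] with x hx hx'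
      rw [hx, Pi.smul_apply, hx', smul_eq_mul]
    have h2 : ((∑ k ∈ P.support, P.coeff k • Mo p k : LpI p) : ℝ → ℂ) =ᵐ[mu]
        fun x : ℝ => ∑ k ∈ P.support, P.coeff k * (x : ℂ) ^ k := by
      refine (Lp.coeFn_finsetSum _ _).trans ?_
      have h3 : ∀ᵐ x ∂mu, ∀ k ∈ P.support, ((P.coeff k • Mo p k : LpI p) : ℝ → ℂ) x =
          P.coeff k * (x : ℂ) ^ k :=
        (ae_ball_iff (Finset.countable_toSet _)).mpr h1
      filter_upwards [h3] with x hx
      rw [Finset.sum_apply]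
      exact Finset.sum_congr rfl hx
    refine Filter.EventuallyEq.symm (h2.trans ?_)
    filter_upwards with x
    rw [Polynomial.eval_eq_sum, Polynomial.sum]
  rw [e]
  exact Submodule.sum_mem _ fun k _ =>
    Submodule.smul_mem _ _ (Submodule.subset_span ⟨k, rfl⟩)

/-- the polynomials are dense in `L^p[0,1]` -/
theorem Mo_dense (p : ENNReal) [Fact (1 ≤ p)] (hp : p < ⊤) (f : LpI p) :
    f ∈ closure (Submodule.span ℂ (Set.range (Mo p)) : Set (LpI p)) := by
  rw [Metric.mem_closure_iff]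
  intro ε hε
  have hε2 : 0 < ε / 4 := by positivity
  obtain ⟨φ, hφ, hφm⟩ := (Lp.memLp f).exists_boundedContinuous_eLpNorm_sub_le hp.ne
    (ε := ENNReal.ofReal (ε / 4)) (by simpa using hε2)
  obtain ⟨P1, h1⟩ := exists_polynomial_near_of_continuousOn 0 1 (fun x => (φ x).re)
    (by fun_prop) (ε / 4) hε2
  obtain ⟨P2, h2⟩ := exists_polynomial_near_of_continuousOn 0 1 (fun x => (φ x).im)
    (by fun_prop) (ε / 4) hε2
  set P : ℂ[X] := P1.map (algebraMap ℝ ℂ) + C Complex.I * P2.map (algebraMap ℝ ℂ) with hP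
  have hev : ∀ x : ℝ, P.eval (x : ℂ) = (P1.eval x : ℝ) + Complex.I * (P2.eval x : ℝ) := by
    intro x
    have e1 : ∀ Q : ℝ[X], (Q.map (algebraMap ℝ ℂ)).eval (x : ℂ) = ((Q.eval x : ℝ) : ℂ) := by
      intro Q
      rw [Polynomial.eval_map_algebraMap]
      have h3 := Polynomial.aeval_algebraMap_apply (A := ℝ) ℂ x Q
      simpa using h3
    rw [hP, eval_add, eval_mul, eval_C, e1, e1]
  have hclose : ∀ x ∈ Set.Icc (0 : ℝ) 1, ‖φ x - P.eval (x : ℂ)‖ ≤ ε / 2 := by
    intro x hx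
    have a1 := h1 x hx
    have a2 := h2 x hx
    have e : φ x - P.eval (x : ℂ) =
        (((φ x).re - P1.eval x : ℝ) : ℂ) + (((φ x).im - P2.eval x : ℝ) : ℂ) * Complex.I := by
      rw [hev x]
      conv_lhs => rw [← Complex.re_add_im (φ x)]
      push_cast
      ring
    rw [e]
    calc ‖(((φ x).re - P1.eval x : ℝ) : ℂ) + (((φ x).im - P2.eval x : ℝ) : ℂ) * Complex.I‖
        ≤ ‖(((φ x).re - P1.eval x : ℝ) : ℂ)‖ + ‖(((φ x).im - P2.eval x : ℝ) : ℂ) * Complex.I‖ :=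
          norm_add_le _ _
      _ = |(φ x).re - P1.eval x| + |(φ x).im - P2.eval x| := by
          rw [norm_mul, Complex.norm_I, mul_one, Complex.norm_real, Complex.norm_real]
          rfl
      _ ≤ ε / 2 := by
          rw [abs_sub_comm, abs_sub_comm ((φ x).im)]
          linarith
  have hPc : Continuous fun x : ℝ => P.eval (x : ℂ) := by
    have : Continuous fun z : ℂ => P.eval z := P.continuous
    exact this.comp Complex.continuous_ofReal
  have hPm : MemLp (fun x : ℝ => P.eval (x : ℂ)) p mu := by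
    have hd : MemLp (fun x : ℝ => φ x - P.eval (x : ℂ)) p mu := by
      refine MemLp.of_bound (φ.continuous.sub hPc).aestronglyMeasurable (ε / 2) ?_
      unfold mu
      filter_upwards [ae_restrict_mem measurableSet_Icc] with x hx
      exact hclose x hx
    have := hφm.sub hd
    refine this.congr_norm hPc.aestronglyMeasurable ?_
    filter_upwards with x
    simp
  refine ⟨hPm.toLp, poly_mem p P hPm, ?_⟩
  have hd1 : ‖f - hφm.toLp‖ ≤ ε / 4 := by
    rw [Lp.norm_def]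
    have e : eLpNorm ((f - hφm.toLp : LpI p) : ℝ → ℂ) p mu = eLpNorm (⇑f - ⇑φ) p mu := by
      apply eLpNorm_congr_ae
      filter_upwards [Lp.coeFn_sub f hφm.toLp, hφm.coeFn_toLp] with x hx hx'
      rw [hx, Pi.sub_apply, Pi.sub_apply, hx']
    rw [e]
    calc (eLpNorm (⇑f - ⇑φ) p mu).toReal ≤ (ENNReal.ofReal (ε / 4)).toReal :=
          ENNReal.toReal_mono ENNReal.ofReal_ne_top hφ
      _ = ε / 4 := ENNReal.toReal_ofReal hε2.le
  have hd2 : ‖hφm.toLp - hPm.toLp‖ ≤ ε / 2 := by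
    have h3 : ∀ᵐ x ∂mu, ‖((hφm.toLp - hPm.toLp : LpI p) : ℝ → ℂ) x‖ ≤ ε / 2 := by
      have h4 : ∀ᵐ x : ℝ ∂mu, x ∈ Set.Icc (0 : ℝ) 1 := by
        unfold mu
        exact ae_restrict_mem measurableSet_Icc
      filter_upwards [Lp.coeFn_sub hφm.toLp hPm.toLp, hφm.coeFn_toLp, hPm.coeFn_toLp, h4] with x
        hx hx' hx'' hx4
      rw [hx, Pi.sub_apply, hx', hx'']
      exact hclose x hx4
    have h5 := Lp.norm_le_of_ae_bound (by positivity) h3
    have h6 : measureUnivNNReal mu = 1 := by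
      simp [measureUnivNNReal, mu_univ]
    rw [h6] at h5
    simpa using h5
  rw [dist_eq_norm]
  calc ‖f - hPm.toLp‖ = ‖(f - hφm.toLp) + (hφm.toLp - hPm.toLp)‖ := by
        congr 1
        abel
    _ ≤ ‖f - hφm.toLp‖ + ‖hφm.toLp - hPm.toLp‖ := norm_add_le _ _
    _ < ε := by linarith

/-- the weights `t ^ n / n! * exp (-(b t))` are integrable -/
theorem wt_int (n : ℕ) {b : ℝ} (hb : 0 < b) :
    IntegrableOn (fun t : ℝ => t ^ n / n.factorial * Real.exp (-(b * t))) (Set.Ioi 0) := by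
  have h1 := integrableOn_rpow_mul_exp_neg_mul_rpow (s := (n : ℝ)) (p := 1) (b := b)
    (by have : (0 : ℝ) ≤ n := Nat.cast_nonneg n; linarith) one_pos hb
  have h2 : IntegrableOn (fun x : ℝ => (n.factorial : ℝ)⁻¹ *
      (x ^ (n : ℝ) * Real.exp (-b * x ^ (1 : ℝ)))) (Set.Ioi 0) :=
    Integrable.const_mul h1 ((n.factorial : ℝ)⁻¹)
  refine h2.congr_fun ?_ measurableSet_Ioi
  intro t _
  simp only [Real.rpow_natCast, Real.rpow_one]
  rw [div_eq_mul_inv, neg_mul]
  ring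

theorem wt_val (n : ℕ) {b : ℝ} (hb : 0 < b) :
    ∫ t in Set.Ioi (0 : ℝ), t ^ n / n.factorial * Real.exp (-(b * t)) = (1 / b) ^ (n + 1) := by
  have h1 := Real.integral_rpow_mul_exp_neg_mul_Ioi (a := (n : ℝ) + 1) (r := b) (by positivity) hb
  have h2 : ∀ t : ℝ, t ^ n / n.factorial * Real.exp (-(b * t)) =
      (n.factorial : ℝ)⁻¹ * (t ^ ((n : ℝ) + 1 - 1) * Real.exp (-(b * t))) := by
    intro t
    rw [add_sub_cancel_right, Real.rpow_natCast, div_eq_mul_inv]
    ring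
  simp only [h2]
  rw [integral_const_mul, h1, Real.Gamma_nat_eq_factorial]
  have h3 : (1 / b) ^ ((n : ℝ) + 1) = (1 / b) ^ (n + 1) := by
    rw [← Real.rpow_natCast]
    push_cast
    rfl
  rw [h3]
  have : (n.factorial : ℝ) ≠ 0 := by exact_mod_cast n.factorial_ne_zero
  field_simp

theorem T_Mo (hA : S_AEC) (p : ENNReal) [Fact (1 ≤ p)] (T : ℝ → LpI p →L[ℂ] LpI p)
    (hT : ∀ r, 0 ≤ r → ∀ f : LpI p, (T r f : ℝ → ℂ) =ᵐ[mu] tfun p r f ∧ ‖T r f‖ ≤ ‖f‖)
    (k : ℕ) (t : ℝ) (ht : 0 ≤ t) :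
    T t (Mo p k) = ((Real.exp (-((1 / p.toReal + k) * t)) : ℝ) : ℂ) • Mo p k := by
  apply Lp.ext
  have h1 := (hT t ht (Mo p k)).1
  have h2 := hA p t _ _ ht (Mo_ae p k)
  refine (h1.trans h2).trans ?_
  filter_upwards [Lp.coeFn_smul (((Real.exp (-((1 / p.toReal + k) * t)) : ℝ) : ℂ)) (Mo p k),
    Mo_ae p k] with x hx hx'
  rw [hx, Pi.smul_apply, hx', smul_eq_mul]
  unfold tfun
  have e : Real.exp (-((1 / p.toReal + k) * t)) = Real.exp (-(t / p.toReal)) * Real.exp (-t) ^ k := by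
    rw [← Real.exp_nat_mul, ← Real.exp_add]
    congr 1
    ring
  rw [e]
  push_cast
  ring

theorem H_Mo (p : ENNReal) [Fact (1 ≤ p)] (H : LpI p →L[ℂ] LpI p)
    (hH : ∀ f : LpI p, (H f : ℝ → ℂ) =ᵐ[mu] hardyFun f) (k : ℕ) :
    H (Mo p k) = ((1 / ((k : ℝ) + 1) : ℝ) : ℂ) • Mo p k := by
  apply Lp.ext
  refine (hH (Mo p k)).trans ?_
  have h0 : ∀ᵐ x : ℝ ∂mu, x ∈ Set.Icc (0 : ℝ) 1 := by
    unfold mu
    exact ae_restrict_mem measurableSet_Icc
  have h00 : ∀ᵐ x : ℝ ∂mu, x ≠ 0 := by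
    unfold mu
    apply ae_restrict_of_ae
    rw [ae_iff]
    have : {a : ℝ | ¬ a ≠ 0} = {0} := by
      ext a
      simp
    rw [this]
    exact Real.volume_singleton
  filter_upwards [Lp.coeFn_smul (((1 / ((k : ℝ) + 1) : ℝ) : ℂ)) (Mo p k), Mo_ae p k, h0, h00] with x
    hx hx' hx0 hx00
  rw [hx, Pi.smul_apply, hx', smul_eq_mul]
  unfold hardyFun
  have h1 : ∫ t in (0 : ℝ)..x, (Mo p k : ℝ → ℂ) t = ∫ t in (0 : ℝ)..x, (t : ℂ) ^ k := by
    apply intervalIntegral.integral_congr_ae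
    have h2 := Mo_ae p k
    unfold mu at h2
    rw [Filter.EventuallyEq, ae_restrict_iff' measurableSet_Icc] at h2
    filter_upwards [h2] with t h3 ht
    rw [Set.uIoc_of_le hx0.1] at ht
    exact h3 ⟨ht.1.le, ht.2.trans hx0.2⟩
  have h4 : ∫ t in (0 : ℝ)..x, (t : ℂ) ^ k = ((x ^ (k + 1) / (k + 1) : ℝ) : ℂ) := by
    have h5 : ∀ t : ℝ, (t : ℂ) ^ k = ((t ^ k : ℝ) : ℂ) := fun t => by push_cast; rfl
    simp only [h5]
    rw [intervalIntegral.integral_ofReal, integral_pow]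
    simp
  rw [h1, h4]
  have hxc : (x : ℂ) ≠ 0 := by exact_mod_cast hx00
  have hk : (k : ℂ) + 1 ≠ 0 := by exact_mod_cast Nat.succ_ne_zero k
  push_cast
  field_simp
  ring

theorem HPW_proved (hA : S_AEC) : S_HPW := by
  intro p _ hp hpt T H hT hTc hH g f n
  have hp1 : 1 < p.toReal := by
    have := (ENNReal.toReal_lt_toReal ENNReal.one_ne_top hpt.ne).mpr hp
    simpa using this
  set a : ℝ := 1 - 1 / p.toReal with ha
  have ha0 : 0 < a := by
    rw [ha, sub_pos, div_lt_one (by linarith)]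
    exact hp1
  set w : ℝ → ℝ := fun t => t ^ n / n.factorial * Real.exp (-(a * t)) with hw
  have hwi : IntegrableOn w (Set.Ioi 0) := wt_int n ha0
  have hw0 : ∀ t ∈ Set.Ioi (0 : ℝ), 0 ≤ w t := by
    intro t ht
    have : 0 < t := ht
    rw [hw]
    positivity
  have hwc : Continuous w := by
    rw [hw]
    fun_prop
  -- integrability
  have hint : ∀ f : LpI p, IntegrableOn (fun t => ((w t : ℝ) : ℂ) * g (T t f)) (Set.Ioi 0) := by
    intro f
    have h1 : IntegrableOn (fun t => w t * (‖g‖ * ‖f‖)) (Set.Ioi 0) := hwi.mul_const _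
    refine Integrable.mono' h1 ?_ ?_
    · have h2 : ContinuousOn (fun t => ((w t : ℝ) : ℂ) * g (T t f)) (Set.Ioi 0) := by
        apply ContinuousOn.mul
        · exact (Complex.continuous_ofReal.comp hwc).continuousOn
        · exact g.continuous.comp_continuousOn ((hTc f).mono Set.Ioi_subset_Ici_self)
      exact h2.aestronglyMeasurable measurableSet_Ioi
    · filter_upwards [ae_restrict_mem measurableSet_Ioi] with t ht
      rw [norm_mul, Complex.norm_real, Real.norm_of_nonneg (hw0 t ht)]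
      apply mul_le_mul_of_nonneg_left _ (hw0 t ht)
      have ht0 : 0 ≤ t := le_of_lt ht
      exact (g.le_opNorm _).trans (mul_le_mul_of_nonneg_left (hT t ht0 f).2 (norm_nonneg _))
  -- the closed subspace where the two sides agree
  set Φ : LpI p → ℂ := fun f => g ((H ^ (n + 1)) f) -
    ∫ t in Set.Ioi (0 : ℝ), ((w t : ℝ) : ℂ) * g (T t f) with hΦ
  have hadd : ∀ f₁ f₂, Φ (f₁ + f₂) = Φ f₁ + Φ f₂ := by
    intro f₁ f₂
    simp only [hΦ, map_add, mul_add]
    rw [integral_add (hint f₁) (hint f₂)]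
    ring
  have hsmul : ∀ (c : ℂ) f₁, Φ (c • f₁) = c * Φ f₁ := by
    intro c f₁
    simp only [hΦ, map_smul, smul_eq_mul]
    have : ∀ t : ℝ, ((w t : ℝ) : ℂ) * (c * g (T t f₁)) = c * (((w t : ℝ) : ℂ) * g (T t f₁)) :=
      fun t => by ring
    simp only [this]
    rw [integral_const_mul]
    ring
  have hbd : ∃ C : ℝ, ∀ f, ‖Φ f‖ ≤ C * ‖f‖ := by
    refine ⟨‖g‖ * ‖H ^ (n + 1)‖ + (∫ t in Set.Ioi (0 : ℝ), w t) * ‖g‖, fun f => ?_⟩
    have h1 : ‖g ((H ^ (n + 1)) f)‖ ≤ ‖g‖ * (‖H ^ (n + 1)‖ * ‖f‖) :=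
      (g.le_opNorm _).trans (mul_le_mul_of_nonneg_left ((H ^ (n + 1)).le_opNorm f) (norm_nonneg _))
    have h2 : ‖∫ t in Set.Ioi (0 : ℝ), ((w t : ℝ) : ℂ) * g (T t f)‖ ≤
        ∫ t in Set.Ioi (0 : ℝ), w t * (‖g‖ * ‖f‖) := by
      apply norm_integral_le_of_norm_le (hwi.mul_const _)
      filter_upwards [ae_restrict_mem measurableSet_Ioi] with t ht
      rw [norm_mul, Complex.norm_real, Real.norm_of_nonneg (hw0 t ht)]
      apply mul_le_mul_of_nonneg_left _ (hw0 t ht)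
      have ht0 : 0 ≤ t := le_of_lt ht
      exact (g.le_opNorm _).trans (mul_le_mul_of_nonneg_left (hT t ht0 f).2 (norm_nonneg _))
    rw [integral_mul_const] at h2
    calc ‖Φ f‖ ≤ ‖g ((H ^ (n + 1)) f)‖ + ‖∫ t in Set.Ioi (0 : ℝ), ((w t : ℝ) : ℂ) * g (T t f)‖ :=
          norm_sub_le _ _
      _ ≤ _ := by
          have := add_le_add h1 h2
          linarith
  obtain ⟨C, hC⟩ := hbd
  let Ψ : LpI p →ₗ[ℂ] ℂ :=
    { toFun := Φ
      map_add' := hadd
      map_smul' := fun c x => by simpa using hsmul c x }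
  let Ψc : LpI p →L[ℂ] ℂ := Ψ.mkContinuous C hC
  have hMo : ∀ k, Φ (Mo p k) = 0 := by
    intro k
    have hk : (0 : ℝ) < (k : ℝ) + 1 := by positivity
    have h1 : ∀ j : ℕ, (H ^ j) (Mo p k) = (((1 / ((k : ℝ) + 1)) ^ j : ℝ) : ℂ) • Mo p k := by
      intro j
      induction j with
      | zero => simp
      | succ j ih =>
        rw [pow_succ', ContinuousLinearMap.mul_apply, ih, map_smul, H_Mo p H hH k, smul_smul]
        congr 1
        push_cast
        ring
    have h2 : ∫ t in Set.Ioi (0 : ℝ), ((w t : ℝ) : ℂ) * g (T t (Mo p k)) =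
        (((1 / ((k : ℝ) + 1)) ^ (n + 1) : ℝ) : ℂ) * g (Mo p k) := by
      have h3 : ∀ t ∈ Set.Ioi (0 : ℝ), ((w t : ℝ) : ℂ) * g (T t (Mo p k)) =
          ((t ^ n / n.factorial * Real.exp (-(((k : ℝ) + 1) * t)) : ℝ) : ℂ) * g (Mo p k) := by
        intro t ht
        have ht0 : 0 ≤ t := le_of_lt ht
        rw [T_Mo hA p T hT k t ht0, map_smul, smul_eq_mul, ← mul_assoc, ← Complex.ofReal_mul]
        congr 2
        rw [hw]
        simp only
        rw [mul_assoc, ← Real.exp_add]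
        congr 2
        rw [ha]
        ring
      rw [setIntegral_congr_fun measurableSet_Ioi h3, integral_mul_const,
        integral_complex_ofReal, wt_val n hk]
    simp only [hΦ]
    rw [h1, h2, map_smul, smul_eq_mul, sub_self]
  have hker : f ∈ closure (Submodule.span ℂ (Set.range (Mo p)) : Set (LpI p)) := Mo_dense p hpt f
  have hle : (Submodule.span ℂ (Set.range (Mo p)) : Set (LpI p)) ⊆ {f | Ψc f = 0} := by
    have : Submodule.span ℂ (Set.range (Mo p)) ≤ LinearMap.ker Ψ := by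
      rw [Submodule.span_le]
      rintro _ ⟨k, rfl⟩
      exact hMo k
    intro y hy
    exact this hy
  have hcl : IsClosed {f | Ψc f = 0} := isClosed_eq Ψc.continuous continuous_const
  have hfin : Ψc f = 0 := closure_minimal hle hcl hker
  have : Φ f = 0 := hfin
  exact sub_eq_zero.mp this

end HM
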